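import Pool.Agent.Helper57_K9.Stmts
import Pool.Agent.Helper96_PP.Trn
import Pool.Agent.Helper20_PP.Nls
import Pool.Agent.Helper67_PP.S1n

/-!
# Squad K9, row LBR: the `ℓ`-number depends only on the Brauer map
-/

open scoped BigOperators

noncomputable section

namespace Pool.Agent.PP.K9.H75

open Pool.Agent.Helper51_AWC Pool.Agent.Helper79_WRA Pool.Agent.PP Pool.Agent.PP.KF

theorem lbr : LbrStmt := by
  intro ℓ F _ hF G _ _ e he Q X hQ hQX hXQ
  have : Fact ℓ.Prime := ⟨hF.prime⟩
  have h1 : lnum X e = lnum X (br Q e) := H96.lnum_br hF H20.nls hQ hQX hXQ he.1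
  refine ⟨h1, fun hg => ?_⟩
  have h2 : br Q e = (0 : G → F) := by
    funext x
    unfold br
    split_ifs with hx
    · by_contra hne
      exact hg ⟨x, hx, hne⟩
    · rfl
  rw [h1, h2]
  exact H67.lnum_zero hF X

end Pool.Agent.PP.K9.H75
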